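import Pool.Agent.Helper125.Limit
import Pool.Agent.Helper125.Interval

set_option autoImplicit false
open scoped Pointwise Topology
open Filter

namespace Pool.Agent.Results.MP_e05d43_al.OmegaFull

open Pool.Agent.Helper125

/-- The growth function of the pair `(G, S)`: the number of elements of `G` that are products of at
most `k` factors, each of which is an element of `S` or the inverse of an element of `S`. -/
noncomputable def growthFn (G : Type) [Group G] (S : Finset G) (k : ℕ) : ℕ :=
  Nat.card {g : G // ∃ l : List G, l.length ≤ k ∧ (∀ a ∈ l, a ∈ S ∨ a⁻¹ ∈ S) ∧ l.prod = g}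

/-- The set of exponential growth rates of all pairs (group `G`, finite generating set `S` of `G`):
all real numbers `x` such that `growthFn G S k ^ (1/k)` tends to `x` for such a pair. -/
def growthRates : Set ℝ :=
  {x | ∃ (G : Type) (_ : Group G) (S : Finset G), Subgroup.closure (S : Set G) = ⊤ ∧
    Tendsto (fun k : ℕ => (growthFn G S k : ℝ) ^ ((1 : ℝ) / k)) atTop (𝓝 x)}

lemma mem_pow_iff {W : Type} [Group W] (T : Set W) (k : ℕ) (w : W) :
    w ∈ T ^ k ↔ ∃ l : List W, l.length = k ∧ (∀ a ∈ l, a ∈ T) ∧ l.prod = w := by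
  induction k generalizing w with
  | zero =>
    rw [pow_zero, Set.mem_one]
    constructor
    · rintro rfl
      exact ⟨[], rfl, by simp, rfl⟩
    · rintro ⟨l, hl, _, rfl⟩
      rw [List.length_eq_zero_iff] at hl
      rw [hl]; rfl
  | succ k ih =>
    rw [pow_succ']
    constructor
    · intro h
      obtain ⟨t, ht, w', hw', rfl⟩ := Set.mem_mul.mp h
      obtain ⟨l, hl, hlT, rfl⟩ := (ih w').mp hw'
      refine ⟨t :: l, by simp [hl], ?_, by simp⟩
      intro a ha
      rcases List.mem_cons.mp ha with rfl | ha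
      · exact ht
      · exact hlT a ha
    · rintro ⟨l, hl, hlT, rfl⟩
      rcases l with _ | ⟨t, l⟩
      · simp at hl
      · rw [List.prod_cons]
        refine Set.mul_mem_mul (hlT t List.mem_cons_self) ((ih _).mpr ⟨l, ?_, ?_, rfl⟩)
        · simpa using hl
        · intro a ha; exact hlT a (List.mem_cons_of_mem _ ha)

lemma growth_set_eq {G : Type} [Group G] (S : Finset G) (k : ℕ) :
    {g : G | ∃ l : List G, l.length ≤ k ∧ (∀ a ∈ l, a ∈ S ∨ a⁻¹ ∈ S) ∧ l.prod = g} =
      ((S : Set G) ∪ (S : Set G)⁻¹ ∪ {1}) ^ k := by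
  ext g
  rw [mem_pow_iff]
  constructor
  · rintro ⟨l, hl, hlS, rfl⟩
    refine ⟨l ++ List.replicate (k - l.length) 1, ?_, ?_, ?_⟩
    · simp; omega
    · intro a ha
      rw [List.mem_append, List.mem_replicate] at ha
      rcases ha with ha | ha
      · left
        rcases hlS a ha with h | h
        · left; exact h
        · right; exact h
      · right; exact ha.2
    · simp
  · rintro ⟨l, hl, hlT, rfl⟩
    classical
    refine ⟨l.filter (fun a => a ≠ 1), ?_, ?_, ?_⟩
    · rw [← hl]; exact List.length_filter_le _ _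
    · intro a ha
      rw [List.mem_filter] at ha
      rcases hlT a ha.1 with (h | h) | h
      · left; exact h
      · right; exact h
      · exact absurd h (by simpa using ha.2)
    · clear hl hlT
      induction l with
      | nil => rfl
      | cons a l ih =>
        by_cases ha : a = 1
        · subst ha
          simpa using ih
        · rw [List.filter_cons_of_pos (by simpa using ha), List.prod_cons, List.prod_cons, ih]

lemma growth_finite {G : Type} [Group G] (S : Finset G) (k : ℕ) :
    {g : G | ∃ l : List G, l.length ≤ k ∧ (∀ a ∈ l, a ∈ S ∨ a⁻¹ ∈ S) ∧ l.prod = g}.Finite := by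
  rw [growth_set_eq]
  have h : ((S : Set G) ∪ (S : Set G)⁻¹ ∪ {1}).Finite :=
    ((S.finite_toSet).union (S.finite_toSet).inv).union (Set.finite_singleton 1)
  induction k with
  | zero => rw [pow_zero]; exact Set.finite_one
  | succ k ih => rw [pow_succ]; exact ih.mul h

lemma growthFn_pos {G : Type} [Group G] (S : Finset G) (k : ℕ) : 1 ≤ growthFn G S k := by
  have h1 : (growthFn G S k) =
      ({g : G | ∃ l : List G, l.length ≤ k ∧ (∀ a ∈ l, a ∈ S ∨ a⁻¹ ∈ S) ∧ l.prod = g}).ncard := rfl
  rw [h1]
  refine (Set.ncard_pos (growth_finite S k)).mpr ⟨1, [], by simp, by simp, rfl⟩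

/-- passing to the subgroup generated by a finite symmetric set -/
lemma reduction {W : Type} [Group W] (T : Set W) (hT : T.Finite) (h1 : (1 : W) ∈ T) (hinv : T⁻¹ = T) (x : ℝ)
    (hlim : Tendsto (fun k : ℕ => ((T ^ k).ncard : ℝ) ^ ((1 : ℝ) / k)) atTop (𝓝 x)) : x ∈ growthRates := by
  classical
  have hpre : ((fun g : Subgroup.closure T => (g : W)) ⁻¹' T).Finite := hT.preimage Subtype.val_injective.injOn
  set S : Finset (Subgroup.closure T) := hpre.toFinset with hS
  have hSmem : ∀ g : Subgroup.closure T, g ∈ S ↔ (g : W) ∈ T := by intro g; simp [hS]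
  have hTinv : ∀ w : W, w⁻¹ ∈ T → w ∈ T := by
    intro w hw
    have : w ∈ T⁻¹ := Set.mem_inv.mpr hw
    rwa [hinv] at this
  have hSinv : ∀ g : Subgroup.closure T, (g ∈ S ∨ g⁻¹ ∈ S) ↔ (g : W) ∈ T := by
    intro g
    rw [hSmem, hSmem]
    constructor
    · rintro (h | h)
      · exact h
      · exact hTinv _ h
    · intro h; left; exact h
  refine ⟨Subgroup.closure T, inferInstance, S, ?_, ?_⟩
  · have : (S : Set (Subgroup.closure T)) = (fun g : Subgroup.closure T => (g : W)) ⁻¹' T := by
      ext g; simp [hS]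
    rw [this]
    exact Subgroup.closure_closure_coe_preimage
  · have hcount : ∀ k, growthFn (Subgroup.closure T) S k = (T ^ k).ncard := by
      intro k
      have e1 : (growthFn (Subgroup.closure T) S k) =
        ({g : Subgroup.closure T | ∃ l : List (Subgroup.closure T), l.length ≤ k ∧ (∀ a ∈ l, a ∈ S ∨ a⁻¹ ∈ S) ∧ l.prod = g}).ncard := rfl
      rw [e1, ← Set.ncard_image_of_injective _ Subtype.val_injective]
      congr 1
      ext w
      constructor
      · rintro ⟨g, ⟨l, hl, hlS, rfl⟩, rfl⟩
        have h2 : (l.prod : W) ∈ T ^ l.length := by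
          rw [mem_pow_iff]
          refine ⟨l.map (fun g : Subgroup.closure T => (g : W)), by simp, ?_, ?_⟩
          · intro a ha
            rw [List.mem_map] at ha
            obtain ⟨g, hg, rfl⟩ := ha
            exact (hSinv g).mp (hlS g hg)
          · rw [Subgroup.val_list_prod]
        exact Set.pow_subset_pow_right h1 hl h2
      · intro hw
        rw [mem_pow_iff] at hw
        obtain ⟨l, hl, hlT, rfl⟩ := hw
        have hmem : ∀ a ∈ l, a ∈ Subgroup.closure T := fun a ha => Subgroup.subset_closure (hlT a ha)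
        refine ⟨(l.attach.map (fun a => (⟨a.1, hmem a.1 a.2⟩ : Subgroup.closure T))).prod,
          ⟨l.attach.map (fun a => (⟨a.1, hmem a.1 a.2⟩ : Subgroup.closure T)), ?_, ?_, rfl⟩, ?_⟩
        · simp [hl]
        · intro g hg
          rw [List.mem_map] at hg
          obtain ⟨a, _, rfl⟩ := hg
          exact (hSinv _).mpr (hlT a.1 a.2)
        · show ((l.attach.map (fun a => (⟨a.1, hmem a.1 a.2⟩ : Subgroup.closure T))).prod : W) = l.prod
          rw [Subgroup.val_list_prod, List.map_map]
          congr 1
          exact List.attach_map_subtype_val l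
    refine hlim.congr (fun k => ?_)
    rw [hcount]

lemma one_mem_growthRates : (1 : ℝ) ∈ growthRates := by
  refine ⟨PUnit, inferInstance, ∅, ?_, ?_⟩
  · exact Subsingleton.elim _ _
  · have h1 : ∀ k, growthFn PUnit ∅ k = 1 := by
      intro k
      apply le_antisymm _ (growthFn_pos _ _)
      exact Finite.card_le_one_iff_subsingleton.mpr inferInstance
    simp only [h1, Nat.cast_one, Real.one_rpow]
    exact tendsto_const_nhds

lemma growthRates_ge {x : ℝ} (hx : x ∈ growthRates) : 1 ≤ x := by
  obtain ⟨G, _, S, _, hlim⟩ := hx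
  refine ge_of_tendsto' hlim (fun k => ?_)
  apply Real.one_le_rpow
  · exact_mod_cast growthFn_pos S k
  · positivity

lemma gt_one_mem {x : ℝ} (hx : 1 < x) : x ∈ growthRates := by
  obtain ⟨y1, y0, hy1, hy10, hy0, hgood⟩ := Fam.exists_interval
  have hy00 : 0 < y0 := by linarith
  set X := Real.log x with hX
  have hX0 : 0 < X := Real.log_pos hx
  have hl0 : 0 < Real.log (1 / y0) := Real.log_pos (by rw [lt_div_iff₀ (by linarith)]; linarith)
  have hl1 : Real.log (1 / y0) < Real.log (1 / y1) := by
    apply Real.log_lt_log (by positivity)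
    exact one_div_lt_one_div_of_lt hy1 hy10
  obtain ⟨ρ, hρ1, hρ2⟩ := exists_rat_btwn (div_lt_div_of_pos_right hl1 hX0)
  have hρ0 : (0:ℝ) < ρ := lt_trans (by positivity) hρ1
  have hρ0' : 0 < ρ := by exact_mod_cast hρ0
  have hnum : 0 < ρ.num := Rat.num_pos.mpr hρ0'
  obtain ⟨n, hn⟩ : ∃ n : ℕ, ρ.num = n + 1 := ⟨(ρ.num - 1).toNat, by omega⟩
  set m : ℕ := ρ.den with hm
  have hm0 : 0 < m := ρ.den_pos
  have hρeq : (ρ : ℝ) = ((n:ℝ) + 1) / m := by
    have : (ρ : ℝ) = (ρ.num : ℝ) / (ρ.den : ℝ) := by exact_mod_cast (Rat.num_div_den ρ).symm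
    rw [this, hn]
    push_cast
    rfl
  set y : ℝ := Real.exp (-(X * ρ)) with hy
  have hy0' : 0 < y := Real.exp_pos _
  have hlogy : Real.log (1 / y) = X * ρ := by
    rw [hy, one_div, Real.log_inv, Real.log_exp, neg_neg]
  have hya : y1 ≤ y := by
    rw [div_lt_iff₀ hX0] at hρ1
    rw [lt_div_iff₀ hX0] at hρ2
    have h1 : Real.log (1 / y) ≤ Real.log (1 / y1) := by rw [hlogy]; linarith
    have h2 := (Real.log_le_log_iff (by positivity) (by positivity)).mp h1
    exact (one_div_le_one_div hy0' hy1).mp h2
  have hyb : y ≤ y0 := by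
    rw [div_lt_iff₀ hX0] at hρ1
    have h1 : Real.log (1 / y0) ≤ Real.log (1 / y) := by rw [hlogy]; linarith
    have h2 := (Real.log_le_log_iff (by positivity) (by positivity)).mp h1
    exact (one_div_le_one_div (by linarith) hy0').mp h2
  obtain ⟨H, hH, P, Q, hP, hQ, hlow, hup⟩ := hgood y hya hyb
  have hlim := Wr.T_limit (n := n) P Q y hy0' (by linarith) hlow hup m hm0
  have hval : Real.exp (Real.log (1 / y) * m / (n+1)) = x := by
    rw [hlogy, hρeq]
    have hm0' : (0:ℝ) < m := by exact_mod_cast hm0
    have : X * (((n:ℝ) + 1) / m) * m / (n+1) = X := by field_simp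
    rw [this, hX, Real.exp_log (by linarith)]
  rw [hval] at hlim
  refine reduction ((Wr.T n P Q) ^ m) ?_ ?_ ?_ x hlim
  · exact Wr.T_pow_finite P Q m
  · have := Wr.T_pow_mono (n := n) P Q (Nat.zero_le m)
    apply this
    rw [pow_zero]; exact Set.mem_one.mpr rfl
  · rw [← inv_pow, Wr.T_inv]

/-- Sanity check: the growth function is submultiplicative. -/
lemma growthFn_submul {G : Type} [Group G] (S : Finset G) (m n : ℕ) :
    growthFn G S (m + n) ≤ growthFn G S m * growthFn G S n := by
  have h1 : ∀ k, (growthFn G S k) = (((S : Set G) ∪ (S : Set G)⁻¹ ∪ {1}) ^ k).ncard := by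
    intro k
    rw [← growth_set_eq]
    rfl
  rw [h1, h1, h1, pow_add]
  exact Set.natCard_mul_le

/-- Sanity check: the limit that defines the exponential growth rate exists for every pair. -/
theorem limit_exists (G : Type) [Group G] (S : Finset G) :
    ∃ x : ℝ, Tendsto (fun k : ℕ => (growthFn G S k : ℝ) ^ ((1 : ℝ) / k)) atTop (𝓝 x) := by
  have hpos : ∀ k, (1 : ℝ) ≤ growthFn G S k := fun k => by exact_mod_cast growthFn_pos S k
  have hsub : Subadditive (fun k => Real.log (growthFn G S k)) := by
    intro m n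
    have h1 : (growthFn G S (m + n) : ℝ) ≤ growthFn G S m * growthFn G S n := by
      exact_mod_cast growthFn_submul S m n
    have h2 := hpos m
    have h3 := hpos n
    have h4 := hpos (m + n)
    rw [← Real.log_mul (by positivity) (by positivity)]
    exact Real.log_le_log (by linarith) h1
  have hbdd : BddBelow (Set.range (fun k : ℕ => Real.log (growthFn G S k) / k)) := by
    refine ⟨0, ?_⟩
    rintro _ ⟨k, rfl⟩
    have := Real.log_nonneg (hpos k)
    positivity
  refine ⟨Real.exp hsub.lim, ?_⟩
  have hexp := (Real.continuous_exp.tendsto _).comp (hsub.tendsto_lim hbdd)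
  refine hexp.congr (fun k => ?_)
  simp only [Function.comp_apply]
  rw [Real.rpow_def_of_pos (by linarith [hpos k])]
  congr 1
  ring

/-- The set of exponential growth rates of finitely generated groups is the whole of `[1, ∞)`. -/
theorem result : growthRates = Set.Ici 1 := by
  ext x
  constructor
  · intro hx; exact growthRates_ge hx
  · intro hx
    rcases (Set.mem_Ici.mp hx).eq_or_lt with h | h
    · rw [← h]; exact one_mem_growthRates
    · exact gt_one_mem h

end Pool.Agent.Results.MP_e05d43_al.OmegaFull
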